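import Pool.Agent.P8H72.JF.Stm2

/-!
Project JF (helper72), package HEI: endomorphisms of the free group and the intersection form. We use
the group of the pairs `(v, C)` with `(v, C) (v', C') = (v + v', C + C' + v v'ᵗ)`.
-/

set_option autoImplicit false

namespace Pool.Agent.P8H21.JF

open Matrix Pool.Agent.P8H72.JF

/-- pairs of a vector and a matrix -/
@[ext] structure Hb (ι : Type) where
  v : ι → ℤ
  c : Matrix ι ι ℤ

namespace Hb

variable {ι : Type}

instance : Mul (Hb ι) := ⟨fun x y => ⟨x.v + y.v, x.c + y.c + vecMulVec x.v y.v⟩⟩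
instance : One (Hb ι) := ⟨⟨0, 0⟩⟩
instance : Inv (Hb ι) := ⟨fun x => ⟨-x.v, -x.c + vecMulVec x.v x.v⟩⟩

theorem mul_v (x y : Hb ι) : (x * y).v = x.v + y.v := rfl
theorem mul_c (x y : Hb ι) : (x * y).c = x.c + y.c + vecMulVec x.v y.v := rfl
theorem one_v : (1 : Hb ι).v = 0 := rfl
theorem one_c : (1 : Hb ι).c = 0 := rfl
theorem inv_v' (x : Hb ι) : (x⁻¹).v = -x.v := rfl
theorem inv_c' (x : Hb ι) : (x⁻¹).c = -x.c + vecMulVec x.v x.v := rfl

instance : Group (Hb ι) := Group.ofLeftAxioms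
  (fun x y z => by
    refine Hb.ext ?_ ?_
    · rw [mul_v, mul_v, mul_v, mul_v, add_assoc]
    · funext i j
      simp only [mul_v, mul_c, Matrix.add_apply, vecMulVec_apply, Pi.add_apply]
      ring)
  (fun x => by
    refine Hb.ext ?_ ?_
    · rw [mul_v, one_v, zero_add]
    · funext i j
      simp only [mul_c, one_v, one_c, Matrix.add_apply, vecMulVec_apply, Pi.zero_apply,
        Matrix.zero_apply]
      ring)
  (fun x => by
    refine Hb.ext ?_ ?_
    · rw [mul_v, inv_v', one_v, neg_add_cancel]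
    · funext i j
      simp only [mul_c, inv_v', inv_c', one_c, Matrix.add_apply, vecMulVec_apply, Pi.neg_apply,
        Matrix.zero_apply, Matrix.neg_apply]
      ring)

theorem inv_v (x : Hb ι) : (x⁻¹).v = -x.v := rfl
theorem inv_c (x : Hb ι) : (x⁻¹).c = -x.c + vecMulVec x.v x.v := rfl

theorem comm (x y : Hb ι) : x * y * x⁻¹ * y⁻¹ =
    ⟨0, vecMulVec x.v y.v - vecMulVec y.v x.v⟩ := by
  refine Hb.ext ?_ ?_
  · simp only [mul_v, inv_v]
    abel
  · funext i j
    simp only [mul_v, mul_c, inv_v, inv_c, Matrix.add_apply, Matrix.sub_apply, vecMulVec_apply,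
      Pi.add_apply, Pi.neg_apply, Matrix.neg_apply]
    ring

theorem prod_cen {n : ℕ} (C : Fin n → Matrix ι ι ℤ) :
    (List.ofFn fun i => (⟨0, C i⟩ : Hb ι)).prod = ⟨0, ∑ i, C i⟩ := by
  induction n with
  | zero =>
    rw [List.ofFn_zero, List.prod_nil, Finset.univ_eq_empty, Finset.sum_empty]
    rfl
  | succ n ih =>
    rw [List.ofFn_succ, List.prod_cons, ih fun i => C i.succ, Fin.sum_univ_succ]
    refine Hb.ext ?_ ?_
    · rw [mul_v, add_zero]
    · rw [mul_c]
      funext i j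
      simp only [Matrix.add_apply, vecMulVec_apply, Pi.zero_apply]
      ring

/-- the projection to the vectors -/
def vv : Hb ι →* Multiplicative (ι → ℤ) where
  toFun x := Multiplicative.ofAdd x.v
  map_one' := rfl
  map_mul' _ _ := rfl

end Hb

open Hb

/-- the image of the relator -/
theorem map_rel {g : ℕ} (Ψ : FreeGroup (Fin g ⊕ Fin g) →* Hb (Fin g ⊕ Fin g)) :
    Ψ (rel g) = ⟨0, ∑ i : Fin g,
      (vecMulVec (Ψ (FreeGroup.of (Sum.inl i))).v (Ψ (FreeGroup.of (Sum.inr i))).v -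
        vecMulVec (Ψ (FreeGroup.of (Sum.inr i))).v (Ψ (FreeGroup.of (Sum.inl i))).v)⟩ := by
  unfold rel
  rw [map_list_prod, List.map_ofFn, ← prod_cen]
  congr 1
  refine congrArg List.ofFn (funext fun i => ?_)
  rw [Function.comp_apply, map_mul, map_mul, map_mul, map_inv, map_inv, Hb.comm]

/-- the basic homomorphism -/
def Ph (g : ℕ) : FreeGroup (Fin g ⊕ Fin g) →* Hb (Fin g ⊕ Fin g) :=
  FreeGroup.lift fun x => ⟨Pi.single x 1, 0⟩

theorem Ph_v (g : ℕ) (w : FreeGroup (Fin g ⊕ Fin g)) :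
    (Ph g w).v = Multiplicative.toAdd (fh g w) := by
  have h : vv.comp (Ph g) = fh g := by
    refine FreeGroup.ext_hom _ _ fun x => ?_
    rw [MonoidHom.comp_apply]
    unfold Ph fh
    rw [FreeGroup.lift_apply_of, FreeGroup.lift_apply_of]
    rfl
  rw [← h]
  rfl

theorem fh_of (g : ℕ) (x : Fin g ⊕ Fin g) :
    Multiplicative.toAdd (fh g (FreeGroup.of x)) = Pi.single x 1 := by
  unfold fh
  rw [FreeGroup.lift_apply_of]
  rfl

theorem sum_Jm (g : ℕ) : ∑ i : Fin g,
    (vecMulVec (Pi.single (Sum.inl i) 1 : Fin g ⊕ Fin g → ℤ) (Pi.single (Sum.inr i) 1) -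
      vecMulVec (Pi.single (Sum.inr i) 1 : Fin g ⊕ Fin g → ℤ) (Pi.single (Sum.inl i) 1)) =
    Jm g := by
  classical
  funext a b
  rw [Matrix.sum_apply]
  simp only [Matrix.sub_apply, vecMulVec_apply]
  unfold Jm
  rcases a with a | a <;> rcases b with b | b
  · rw [fromBlocks_apply₁₁]
    simp [Pi.single_apply]
  · rw [fromBlocks_apply₁₂]
    simp [Pi.single_apply, Matrix.one_apply]
  · rw [fromBlocks_apply₂₁]
    simp [Pi.single_apply, Matrix.one_apply]
  · rw [fromBlocks_apply₂₂]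
    simp [Pi.single_apply]

/-- the central subgroup of the multiples of the form -/
def Zs (g : ℕ) : Subgroup (Hb (Fin g ⊕ Fin g)) where
  carrier := {h | h.v = 0 ∧ ∃ k : ℤ, h.c = k • Jm g}
  one_mem' := ⟨rfl, 0, by rw [zero_smul]; rfl⟩
  mul_mem' := by
    rintro x y ⟨h1, k, h2⟩ ⟨h3, l, h4⟩
    refine ⟨by rw [mul_v, h1, h3, add_zero], k + l, ?_⟩
    rw [mul_c, h1, h2, h4, zero_vecMulVec, add_zero, add_smul]
  inv_mem' := by
    rintro x ⟨h1, k, h2⟩
    refine ⟨by rw [inv_v, h1, neg_zero], -k, ?_⟩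
    rw [inv_c, h1, h2, zero_vecMulVec, add_zero, neg_smul]

instance (g : ℕ) : (Zs g).Normal where
  conj_mem := by
    rintro h ⟨h1, k, h2⟩ x
    refine ⟨?_, k, ?_⟩
    · rw [mul_v, mul_v, inv_v, h1]
      abel
    · rw [mul_c, mul_c, mul_v, inv_v, inv_c, h1, h2]
      funext i j
      simp only [Matrix.add_apply, vecMulVec_apply, Pi.zero_apply, Pi.neg_apply, Pi.add_apply,
        Matrix.neg_apply]
      ring

/-- **HEI.** -/
theorem t_HEI : S_HEI := by
  intro g f A hA hf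
  have h1 : Ph g (rel g) = ⟨0, Jm g⟩ := by
    rw [map_rel]
    refine Hb.ext rfl ?_
    simp only [Ph_v, fh_of]
    exact sum_Jm g
  have h2 : (Ph g (f (rel g))).c = A * Jm g * Aᵀ := by
    have h3 := map_rel ((Ph g).comp f)
    rw [MonoidHom.comp_apply] at h3
    rw [h3, ← sum_Jm, Matrix.mul_sum, Matrix.sum_mul]
    dsimp only
    refine Finset.sum_congr rfl fun i _ => ?_
    rw [MonoidHom.comp_apply, MonoidHom.comp_apply, Ph_v, Ph_v, hA, hA, fh_of, fh_of,
      Matrix.mul_sub, Matrix.sub_mul, mul_vecMulVec, mul_vecMulVec, vecMulVec_mul, vecMulVec_mul,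
      vecMul_transpose, vecMul_transpose]
  have h3 : Subgroup.normalClosure ({rel g} : Set (FreeGroup (Fin g ⊕ Fin g))) ≤
      (Zs g).comap (Ph g) := by
    refine Subgroup.normalClosure_le_normal ?_
    rintro _ rfl
    change Ph g (rel g) ∈ Zs g
    rw [h1]
    exact ⟨rfl, 1, by rw [one_smul]⟩
  obtain ⟨-, k, hk⟩ := h3 hf
  exact ⟨k, by rw [← h2]; exact hk⟩

end Pool.Agent.P8H21.JF
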